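import Pool.Agent.Run7.h882.NEG.LeakA

/-! Combinatorial and numerical lemmas for the piece LEAK (project NEG of helper35). -/

set_option autoImplicit false

namespace Run7.h882.NEG

open Run7.h35.NEG Finset Module Classical

/-! ### levels -/

theorem k_step {T : Tower} {H ε C₀ : ℝ} {g Γ : ℕ} (hOK : T.OK H ε C₀ g Γ) (hg : 1 ≤ g) {s : ℕ}
    (hs : s < T.top) : T.k s ≤ T.k (s + 1) := by
  have h1 : 1 ≤ T.k s := hOK.one_le_a.trans (hOK.k_ge s)
  calc T.k s ≤ T.k s ^ 30 := Nat.le_self_pow (by norm_num) _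
    _ ≤ (T.k s ^ 30) ^ g := Nat.le_self_pow (by omega) _
    _ = T.n s ^ g := by rw [hOK.n_eq s hs]
    _ ≤ T.k (s + 1) := hOK.gap s hs

theorem k_mono {T : Tower} {H ε C₀ : ℝ} {g Γ : ℕ} (hOK : T.OK H ε C₀ g Γ) (hg : 1 ≤ g) {s t : ℕ}
    (hst : s ≤ t) (ht : t ≤ T.top) : T.k s ≤ T.k t := by
  induction t, hst using Nat.le_induction with
  | base => exact le_rfl
  | succ t hst ih => exact (ih (by omega)).trans (k_step hOK hg (by omega))

/-! ### supports -/

section supp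

variable {N J : ℕ} (c : ℕ → Fin N → Fin J → ℝ) (i : ℕ)

/-- rows occurring in the column `j` -/
noncomputable def supp (j : Fin J) : Finset (Fin N) :=
  univ.filter (fun ν => ∃ s ∈ range (i + 1), c s ν j ≠ 0)

theorem supp_card_le (q : ℕ) (hq : ∀ s ≤ i, ∀ j,
    (univ.filter (fun ν => c s ν j ≠ 0)).card ≤ q) (j : Fin J) :
    (supp c i j).card ≤ (i + 1) * q := by
  have h1 : supp c i j ⊆ (range (i + 1)).biUnion (fun s => univ.filter (fun ν => c s ν j ≠ 0)) := by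
    intro ν hν
    simp only [supp, mem_filter, mem_univ, true_and] at hν
    obtain ⟨s, hs, h⟩ := hν
    simp only [mem_biUnion, mem_filter, mem_univ, true_and]
    exact ⟨s, hs, h⟩
  refine (card_le_card h1).trans (card_biUnion_le.trans ?_)
  refine (sum_le_sum (fun s hs => hq s (by rw [mem_range] at hs; omega) j)).trans ?_
  simp

theorem sum_occ : ∑ ν, occ c i ν = ∑ j, (supp c i j).card := by
  unfold occ supp
  simp only [card_filter]
  exact sum_comm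

theorem sum_occ_le (q : ℕ) (hq : ∀ s ≤ i, ∀ j,
    (univ.filter (fun ν => c s ν j ≠ 0)).card ≤ q) :
    ∑ ν, occ c i ν ≤ J * ((i + 1) * q) := by
  rw [sum_occ]
  refine (sum_le_sum fun j _ => supp_card_le c i q hq j).trans ?_
  simp

/-- few frequent rows -/
theorem freq_card_le (q L : ℕ) (hJ : 1 ≤ J) (hq : ∀ s ≤ i, ∀ j,
    (univ.filter (fun ν => c s ν j ≠ 0)).card ≤ q) (S : Finset (Fin N))
    (hS : ∀ ν ∈ S, J ≤ L * occ c i ν) : S.card ≤ L * ((i + 1) * q) := by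
  have h1 : S.card * J ≤ L * ∑ ν, occ c i ν := by
    calc S.card * J = ∑ ν ∈ S, J := by simp
      _ ≤ ∑ ν ∈ S, L * occ c i ν := sum_le_sum hS
      _ ≤ ∑ ν, L * occ c i ν := sum_le_sum_of_subset (subset_univ _)
      _ = L * ∑ ν, occ c i ν := (mul_sum _ _ _).symm
  have h2 := sum_occ_le c i q hq
  have h3 : S.card * J ≤ (L * ((i + 1) * q)) * J :=
    h1.trans ((Nat.mul_le_mul_left L h2).trans (le_of_eq (by ring)))
  exact Nat.le_of_mul_le_mul_right h3 hJ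

/-- few pairs of columns meet on rare rows -/
theorem pairs_le (q Hi : ℕ) (hq : ∀ s ≤ i, ∀ j,
    (univ.filter (fun ν => c s ν j ≠ 0)).card ≤ q) (R : Finset (Fin N))
    (hR : ∀ ν ∈ R, Hi * occ c i ν < J) (M : Fin N → Fin J → ℝ)
    (hM : ∀ ν j, M ν j ≠ 0 → ν ∈ R ∧ ν ∈ supp c i j) :
    Hi * ((univ : Finset (Fin J × Fin J)).filter
      (fun p => ∃ ν, M ν p.1 ≠ 0 ∧ M ν p.2 ≠ 0)).card ≤ J * (J * ((i + 1) * q)) := by
  have hocc : ∀ ν, (univ.filter (fun j => M ν j ≠ 0)).card ≤ occ c i ν := by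
    intro ν
    refine card_le_card fun j hj => ?_
    simp only [mem_filter, mem_univ, true_and] at hj ⊢
    have := (hM ν j hj).2
    simp only [supp, mem_filter, mem_univ, true_and] at this
    exact this
  have h1 : (univ : Finset (Fin J × Fin J)).filter (fun p => ∃ ν, M ν p.1 ≠ 0 ∧ M ν p.2 ≠ 0) ⊆
      R.biUnion (fun ν => univ.filter (fun j => M ν j ≠ 0) ×ˢ univ.filter (fun j => M ν j ≠ 0)) := by
    intro p hp
    simp only [mem_filter, mem_univ, true_and] at hp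
    obtain ⟨ν, h1, h2⟩ := hp
    simp only [mem_biUnion, mem_product, mem_filter, mem_univ, true_and]
    exact ⟨ν, (hM ν _ h1).1, h1, h2⟩
  have h2 := (card_le_card h1).trans card_biUnion_le
  calc Hi * _ ≤ Hi * ∑ ν ∈ R, occ c i ν * occ c i ν := by
        refine Nat.mul_le_mul_left _ (h2.trans (sum_le_sum fun ν _ => ?_))
        rw [card_product]
        exact Nat.mul_le_mul (hocc ν) (hocc ν)
    _ = ∑ ν ∈ R, (Hi * occ c i ν) * occ c i ν := by
        rw [mul_sum]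
        exact sum_congr rfl fun ν _ => by ring
    _ ≤ ∑ ν ∈ R, J * occ c i ν :=
        sum_le_sum fun ν hν => Nat.mul_le_mul_right _ (hR ν hν).le
    _ ≤ ∑ ν, J * occ c i ν := sum_le_sum_of_subset (subset_univ _)
    _ = J * ∑ ν, occ c i ν := (mul_sum _ _ _).symm
    _ ≤ _ := Nat.mul_le_mul_left _ (sum_occ_le c i q hq)

end supp

/-! ### the accumulated contents -/

/-- the constant -/
noncomputable def HH (K top : ℕ) (B : ℝ) : ℝ := (top + 1) * ((K : ℝ) + 1) ^ top * B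

theorem HH_ge (K top : ℕ) {B : ℝ} (hB : 1 ≤ B) : 1 ≤ HH K top B := by
  unfold HH
  have h1 : (1 : ℝ) ≤ top + 1 := by linarith [Nat.cast_nonneg (α := ℝ) top]
  have h2 : (1 : ℝ) ≤ ((K : ℝ) + 1) ^ top := one_le_pow₀ (by linarith [Nat.cast_nonneg (α := ℝ) K])
  have h3 : (1 : ℝ) ≤ (top + 1) * ((K : ℝ) + 1) ^ top := one_le_mul_of_one_le_of_one_le h1 h2
  exact one_le_mul_of_one_le_of_one_le h3 hB

section acc

variable {T : Tower} {J : ℕ} {c : ℕ → Fin (2 ^ T.a) → Fin J → ℝ} {B : ℝ}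

theorem acc_lattice (hc : T.Sparse c B) (s : ℕ) (ν : Fin (2 ^ T.a)) (j : Fin J) :
    ∃ z : ℤ, T.accJ c s ν j * 4 ^ T.a = z := by
  have h : ∀ t, ∃ z : ℤ, c t ν j * 4 ^ T.a = z := fun t => (hc t j).1 ν
  choose z hz using h
  refine ⟨∑ t ∈ range (s + 1), (T.K : ℤ) ^ (s - t) * z t, ?_⟩
  unfold Tower.accJ Tower.acc
  push_cast
  rw [sum_mul]
  refine sum_congr rfl fun t _ => ?_
  rw [mul_assoc, hz t]

theorem acc_sq_le {i s : ℕ} (hi : i < T.top) (hs : s ≤ i) (ν : Fin (2 ^ T.a)) (j : Fin J) :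
    T.accJ c s ν j ^ 2 ≤ ((T.top : ℝ) + 1) * ((T.K : ℝ) + 1) ^ (2 * T.top) *
      ∑ t ∈ range (s + 1), c t ν j ^ 2 := by
  unfold Tower.accJ Tower.acc
  have h1 := sq_sum_le_card_mul_sum_sq (s := range (s + 1))
    (f := fun t => (T.K : ℝ) ^ (s - t) * c t ν j)
  refine h1.trans ?_
  rw [card_range, mul_assoc]
  have hK : (0 : ℝ) ≤ T.K := Nat.cast_nonneg _
  have h2 : ∑ t ∈ range (s + 1), ((T.K : ℝ) ^ (s - t) * c t ν j) ^ 2 ≤
      ((T.K : ℝ) + 1) ^ (2 * T.top) * ∑ t ∈ range (s + 1), c t ν j ^ 2 := by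
    rw [mul_sum]
    refine sum_le_sum fun t _ => ?_
    rw [mul_pow, ← pow_mul]
    refine mul_le_mul_of_nonneg_right ?_ (sq_nonneg _)
    calc (T.K : ℝ) ^ ((s - t) * 2) ≤ ((T.K : ℝ) + 1) ^ ((s - t) * 2) :=
          pow_le_pow_left₀ hK (by linarith) _
      _ ≤ ((T.K : ℝ) + 1) ^ (2 * T.top) :=
          pow_le_pow_right₀ (by linarith) (by omega)
  have h3 : ((s + 1 : ℕ) : ℝ) ≤ (T.top : ℝ) + 1 := by
    have : s + 1 ≤ T.top + 1 := by omega
    exact_mod_cast this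
  exact mul_le_mul h3 h2 (sum_nonneg fun t _ => sq_nonneg _) (by positivity)

theorem sum_acc_sq_le (hc : T.Sparse c B) {i s : ℕ} (hi : i < T.top) (hs : s ≤ i) (j : Fin J) :
    ∑ ν, T.accJ c s ν j ^ 2 ≤ HH T.K T.top B ^ 2 := by
  refine (sum_le_sum fun ν _ => acc_sq_le hi hs ν j).trans ?_
  rw [← mul_sum, sum_comm]
  have h1 : ∑ t ∈ range (s + 1), ∑ ν, c t ν j ^ 2 ≤ ((T.top : ℝ) + 1) * B ^ 2 := by
    calc ∑ t ∈ range (s + 1), ∑ ν, c t ν j ^ 2 ≤ ∑ t ∈ range (s + 1), B ^ 2 :=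
          sum_le_sum fun t _ => (hc t j).2.2
      _ = ((s + 1 : ℕ) : ℝ) * B ^ 2 := by simp
      _ ≤ ((T.top : ℝ) + 1) * B ^ 2 := by
          refine mul_le_mul_of_nonneg_right ?_ (sq_nonneg _)
          have : s + 1 ≤ T.top + 1 := by omega
          exact_mod_cast this
  calc _ ≤ ((T.top : ℝ) + 1) * ((T.K : ℝ) + 1) ^ (2 * T.top) * (((T.top : ℝ) + 1) * B ^ 2) :=
        mul_le_mul_of_nonneg_left h1 (by positivity)
    _ = HH T.K T.top B ^ 2 := by
        unfold HH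
        rw [mul_comm 2 T.top, pow_mul]
        ring

theorem acc_supp {i s : ℕ} (hs : s ≤ i) {ν : Fin (2 ^ T.a)} {j : Fin J}
    (h : T.accJ c s ν j ≠ 0) : ν ∈ supp c i j := by
  simp only [supp, mem_filter, mem_univ, true_and]
  by_contra hcon
  push Not at hcon
  apply h
  unfold Tower.accJ Tower.acc
  refine sum_eq_zero fun t ht => ?_
  change (T.K : ℝ) ^ (s - t) * c t ν j = 0
  rw [hcon t (by rw [mem_range] at *; omega), mul_zero]

end acc

end Run7.h882.NEG
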