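import Pool.Agent.Run7.h882.NEG.LeakB

/-! The piece LEAK (project NEG of helper35, MP_6c92e3_an). -/

set_option autoImplicit false

namespace Run7.h882.NEG

open Run7.h35.NEG Finset Module Classical

/-- numerical facts about one window -/
structure Num (a k n Lo r Hi top : ℕ) (C₀ : ℝ) : Prop where
  k1 : 1 ≤ k
  top_le : top + 1 ≤ k
  C₀_le : C₀ ≤ k
  a_le : a ≤ k
  n_eq : n = k ^ 30
  lo : n ^ 10 ≤ Lo
  mid : Lo ^ 10 ≤ r
  hi : r ^ 10 ≤ Hi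
  up : r ≤ 2 ^ a

theorem num_of {T : Tower} {H ε C₀ : ℝ} {g Γ : ℕ} (hOK : T.OK H ε C₀ g Γ) (hg : 1 ≤ g)
    (hΓ : T.top + 1 ≤ Γ) (hC : C₀ ≤ Γ) {J : ℕ} {c : ℕ → Fin (2 ^ T.a) → Fin J → ℝ}
    {δ : ℝ} {Lo r Hi : ℕ → ℕ} (hw : Win T c δ Lo r Hi) {i : ℕ} (hi : i < T.top) :
    Num T.a (T.k i) (T.n i) (Lo i) (r i) (Hi i) T.top C₀ := by
  have hak := hOK.k_ge i
  have hb := hOK.base
  have h1 : 1 ≤ T.k i := hOK.one_le_a.trans hak
  refine ⟨h1, by omega, ?_, hak, hOK.n_eq i hi, hw.lo i hi, hw.mid i hi, hw.hi i hi, ?_⟩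
  · refine hC.trans ?_
    exact_mod_cast hb.trans hak
  · calc r i ≤ r i ^ 10 := Nat.le_self_pow (by norm_num) _
      _ ≤ Hi i := hw.hi i hi
      _ ≤ Hi i ^ 10 := Nat.le_self_pow (by norm_num) _
      _ ≤ T.k (i + 1) := hw.up i hi
      _ ≤ T.k T.top := k_mono hOK hg (by omega) le_rfl
      _ ≤ T.k T.top ^ g := Nat.le_self_pow (by omega) _
      _ ≤ 2 ^ T.a := hOK.k_top

namespace Num

variable {a k n Lo r Hi top : ℕ} {C₀ : ℝ} (h : Num a k n Lo r Hi top C₀)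

include h

theorem k300 : k ^ 300 ≤ Lo := by
  have := h.lo
  rw [h.n_eq, ← pow_mul] at this
  exact this

theorem kpow_le (m : ℕ) (hm : m ≤ 300) : k ^ m ≤ Lo :=
  (Nat.pow_le_pow_right h.k1 hm).trans h.k300

theorem Lo1 : 1 ≤ Lo := by
  have := h.kpow_le 0 (by norm_num)
  simpa using this

theorem Lopow_le (m : ℕ) (hm : m ≤ 10) : Lo ^ m ≤ r :=
  (Nat.pow_le_pow_right h.Lo1 hm).trans h.mid

theorem r1 : 1 ≤ r := by
  have := h.Lopow_le 0 (by norm_num)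
  simpa using this

theorem rpow_le (m : ℕ) (hm : m ≤ 10) : r ^ m ≤ Hi :=
  (Nat.pow_le_pow_right h.r1 hm).trans h.hi

theorem Hi1 : 1 ≤ Hi := by
  have := h.rpow_le 0 (by norm_num)
  simpa using this

theorem c1 : C₀ * a * n ≤ r := by
  have h1 : k ^ 32 ≤ r := (h.kpow_le 32 (by norm_num)).trans (by simpa using h.Lopow_le 1 (by norm_num))
  have hk0 : (0 : ℝ) ≤ k := Nat.cast_nonneg _
  have ha : (a : ℝ) ≤ k := by exact_mod_cast h.a_le
  have hn : (n : ℝ) = (k : ℝ) ^ 30 := by rw [h.n_eq]; push_cast; rfl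
  calc C₀ * a * n ≤ k * k * k ^ 30 := by
        rw [hn]
        refine mul_le_mul_of_nonneg_right ?_ (by positivity)
        exact mul_le_mul h.C₀_le ha (Nat.cast_nonneg _) hk0
    _ = ((k ^ 32 : ℕ) : ℝ) := by push_cast; ring
    _ ≤ r := by exact_mod_cast h1

theorem c2 {R : ℕ} (hR : R ≤ k ^ 4 * Lo) : C₀ * R ≤ r := by
  have h1 : k * (k ^ 4 * Lo) ≤ r := by
    calc k * (k ^ 4 * Lo) = k ^ 5 * Lo := by ring
      _ ≤ Lo * Lo := Nat.mul_le_mul_right _ (h.kpow_le 5 (by norm_num))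
      _ = Lo ^ 2 := by ring
      _ ≤ r := h.Lopow_le 2 (by norm_num)
  calc C₀ * R ≤ (k : ℝ) * ((k ^ 4 * Lo : ℕ) : ℝ) :=
        mul_le_mul h.C₀_le (by exact_mod_cast hR) (Nat.cast_nonneg _) (Nat.cast_nonneg _)
    _ = ((k * (k ^ 4 * Lo) : ℕ) : ℝ) := by push_cast; ring
    _ ≤ r := by exact_mod_cast h1

/-- `r² q k ≤ Hi` -/
theorem c3 : r ^ 2 * k ^ 3 * k ≤ Hi := by
  calc r ^ 2 * k ^ 3 * k = r ^ 2 * k ^ 4 := by ring
    _ ≤ r ^ 2 * r := Nat.mul_le_mul_left _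
        ((h.kpow_le 4 (by norm_num)).trans (by simpa using h.Lopow_le 1 (by norm_num)))
    _ = r ^ 3 := by ring
    _ ≤ Hi := h.rpow_le 3 (by norm_num)

/-- `R q k² ≤ Hi` -/
theorem c4 {R : ℕ} (hR : R ≤ k ^ 4 * Lo) : R * k ^ 3 * k ^ 2 ≤ Hi := by
  calc R * k ^ 3 * k ^ 2 ≤ (k ^ 4 * Lo) * k ^ 3 * k ^ 2 :=
        Nat.mul_le_mul_right _ (Nat.mul_le_mul_right _ hR)
    _ = k ^ 9 * Lo := by ring
    _ ≤ Lo * Lo := Nat.mul_le_mul_right _ (h.kpow_le 9 (by norm_num))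
    _ = Lo ^ 2 := by ring
    _ ≤ r := h.Lopow_le 2 (by norm_num)
    _ ≤ Hi := by simpa using h.rpow_le 1 (by norm_num)

/-- `√(a/n) q ≤ 1/k` -/
theorem c5 : Real.sqrt ((a : ℝ) / n) * (k : ℝ) ^ 3 ≤ 1 / k := by
  have hk : (1 : ℝ) ≤ k := by exact_mod_cast h.k1
  have hk0 : (0 : ℝ) < k := by linarith
  have ha : (a : ℝ) ≤ k := by exact_mod_cast h.a_le
  have hn : (n : ℝ) = (k : ℝ) ^ 30 := by rw [h.n_eq]; push_cast; rfl
  have h1 : Real.sqrt ((a : ℝ) / n) ≤ 1 / (k : ℝ) ^ 4 := by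
    rw [Real.sqrt_le_left (by positivity), hn, div_pow, one_pow, ← pow_mul,
      div_le_div_iff₀ (by positivity) (by positivity), one_mul]
    calc (a : ℝ) * (k : ℝ) ^ (4 * 2) ≤ k * (k : ℝ) ^ (4 * 2) :=
          mul_le_mul_of_nonneg_right ha (by positivity)
      _ = (k : ℝ) ^ 9 := by ring
      _ ≤ (k : ℝ) ^ 30 := pow_le_pow_right₀ hk (by norm_num)
  calc Real.sqrt ((a : ℝ) / n) * (k : ℝ) ^ 3 ≤ 1 / (k : ℝ) ^ 4 * (k : ℝ) ^ 3 :=
        mul_le_mul_of_nonneg_right h1 (by positivity)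
    _ = 1 / k := by field_simp

end Num

section main

variable {T : Tower} {J : ℕ} {c : ℕ → Fin (2 ^ T.a) → Fin J → ℝ} {B δ : ℝ} {Lo r Hi : ℕ → ℕ}

/-- the index set of the frequent functions -/
abbrev Ix (T : Tower) {J : ℕ} (c : ℕ → Fin (2 ^ T.a) → Fin J → ℝ) (Lo : ℕ → ℕ) (i : ℕ) : Type :=
  {p : ℕ × Fin (2 ^ T.a) // p ∈ range (i + 1) ×ˢ Sf T c Lo i}

theorem Vf_eq {i : ℕ} (hi : i < T.top) :
    Vf T c Lo i = Submodule.span ℝ (Set.range (fun p : Ix T c Lo i => c p.1.1 p.1.2)) := by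
  unfold Vf
  rw [if_pos hi]
  congr 1
  ext w
  constructor
  · rintro ⟨s, hs, ν, hν, rfl⟩
    exact ⟨⟨(s, ν), mem_product.2 ⟨hs, hν⟩⟩, rfl⟩
  · rintro ⟨⟨⟨s, ν⟩, hp⟩, rfl⟩
    exact ⟨s, (mem_product.1 hp).1, ν, (mem_product.1 hp).2, rfl⟩

theorem finrank_Vf_le {i : ℕ} (hi : i < T.top) :
    finrank ℝ (Vf T c Lo i) ≤ Fintype.card (Ix T c Lo i) := by
  rw [Vf_eq hi]
  exact finrank_range_le_card _

theorem sparse_card_le (hc : T.Sparse c B) {H ε C₀ : ℝ} {g Γ : ℕ} (hOK : T.OK H ε C₀ g Γ)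
    (hg : 1 ≤ g) {i : ℕ} (hi : i < T.top) : ∀ s ≤ i, ∀ j,
    (univ.filter (fun ν => c s ν j ≠ 0)).card ≤ T.k i ^ 2 := by
  intro s hs j
  exact (hc s j).2.1.trans (Nat.pow_le_pow_left (k_mono hOK hg hs hi.le) 2)

theorem card_Ix_le (hJ : 1 ≤ J) (hc : T.Sparse c B) {H ε C₀ : ℝ} {g Γ : ℕ}
    (hOK : T.OK H ε C₀ g Γ) (hg : 1 ≤ g) {i : ℕ} (hi : i < T.top)
    (hN : Num T.a (T.k i) (T.n i) (Lo i) (r i) (Hi i) T.top C₀) :
    Fintype.card (Ix T c Lo i) ≤ T.k i ^ 4 * Lo i := by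
  have h1 : Fintype.card (Ix T c Lo i) = (i + 1) * (Sf T c Lo i).card := by
    rw [Fintype.card_coe, card_product, card_range]
  have h2 : (Sf T c Lo i).card ≤ Lo i * ((i + 1) * T.k i ^ 2) := by
    refine freq_card_le c i (T.k i ^ 2) (Lo i) hJ (sparse_card_le hc hOK hg hi) _ ?_
    intro ν hν
    unfold Sf at hν
    rw [if_pos hi, mem_filter] at hν
    exact hν.2
  have h3 : i + 1 ≤ T.k i := by
    have := hN.top_le
    omega
  rw [h1]
  calc (i + 1) * (Sf T c Lo i).card ≤ T.k i * (Lo i * (T.k i * T.k i ^ 2)) :=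
        Nat.mul_le_mul h3 (h2.trans (Nat.mul_le_mul_left _ (Nat.mul_le_mul_right _ h3)))
    _ = T.k i ^ 4 * Lo i := by ring

theorem supp_le (hc : T.Sparse c B) {H ε C₀ : ℝ} {g Γ : ℕ} (hOK : T.OK H ε C₀ g Γ)
    (hg : 1 ≤ g) {i : ℕ} (hi : i < T.top)
    (hN : Num T.a (T.k i) (T.n i) (Lo i) (r i) (Hi i) T.top C₀) (j : Fin J) :
    (supp c i j).card ≤ T.k i ^ 3 := by
  have h3 : i + 1 ≤ T.k i := by
    have := hN.top_le
    omega
  refine (supp_card_le c i _ (sparse_card_le hc hOK hg hi) j).trans ?_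
  calc (i + 1) * T.k i ^ 2 ≤ T.k i * T.k i ^ 2 := Nat.mul_le_mul_right _ h3
    _ = T.k i ^ 3 := by ring

theorem rres_ne {R : Finset (Fin (2 ^ T.a))} {M : Fin (2 ^ T.a) → Fin J → ℝ} {ν : Fin (2 ^ T.a)}
    {j : Fin J} (h : rres R M ν j ≠ 0) : ν ∈ R ∧ M ν j ≠ 0 := by
  unfold rres at h
  by_cases hR : ν ∈ R
  · rw [if_pos hR] at h
    exact ⟨hR, h⟩
  · rw [if_neg hR] at h
    exact absurd rfl h

theorem rres_sq_le (R : Finset (Fin (2 ^ T.a))) (M : Fin (2 ^ T.a) → Fin J → ℝ)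
    (ν : Fin (2 ^ T.a)) (j : Fin J) : rres R M ν j ^ 2 ≤ M ν j ^ 2 := by
  unfold rres
  split_ifs
  · exact le_rfl
  · rw [zero_pow two_ne_zero]
    exact sq_nonneg _

theorem col_le (hc : T.Sparse c B) {i s' : ℕ} (hi : i < T.top) (hs : s' ≤ i)
    (R : Finset (Fin (2 ^ T.a))) (j : Fin J) :
    ∑ ν, rres R (T.accJ c s') ν j ^ 2 ≤ HH T.K T.top B ^ 2 :=
  (sum_le_sum fun ν _ => rres_sq_le R _ ν j).trans (sum_acc_sq_le hc hi hs j)

theorem col_SG (hc : T.Sparse c B) {H ε C₀ : ℝ} {g Γ : ℕ} (hOK : T.OK H ε C₀ g Γ)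
    (hg : 1 ≤ g) {i s' : ℕ} (hi : i < T.top) (hs : s' ≤ i) (hB : 1 ≤ B)
    (hN : Num T.a (T.k i) (T.n i) (Lo i) (r i) (Hi i) T.top C₀) (hH : HH T.K T.top B ≤ H)
    (R : Finset (Fin (2 ^ T.a))) (j : Fin J) :
    SG T.a (T.k i ^ 3) H (fun ν => rres R (T.accJ c s') ν j) := by
  refine ⟨fun ν => ?_, ?_, ?_⟩
  · change ∃ z : ℤ, (if ν ∈ R then T.accJ c s' ν j else 0) * 4 ^ T.a = z
    split_ifs
    · exact acc_lattice hc s' ν j
    · exact ⟨0, by simp⟩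
  · refine (card_le_card fun ν hν => ?_).trans (supp_le hc hOK hg hi hN j)
    simp only [mem_filter, mem_univ, true_and] at hν
    exact acc_supp hs (rres_ne hν).2
  · refine (col_le hc hi hs R j).trans ?_
    exact pow_le_pow_left₀ (by linarith [HH_ge T.K T.top hB]) hH 2

theorem d_SG (hc : T.Sparse c B) {H ε C₀ : ℝ} {g Γ : ℕ} (hOK : T.OK H ε C₀ g Γ)
    (hg : 1 ≤ g) {i : ℕ} (hi : i < T.top) (hB : 1 ≤ B)
    (hN : Num T.a (T.k i) (T.n i) (Lo i) (r i) (Hi i) T.top C₀) (hH : HH T.K T.top B ≤ H)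
    (m : ℕ) (e : Ix T c Lo i ≃ Fin m) (j : Fin J) :
    SG T.a (T.k i ^ 3) H (fun x => c (e.symm x).1.1 (e.symm x).1.2 j) := by
  have h3 : i + 1 ≤ T.k i := by
    have := hN.top_le
    omega
  refine ⟨fun x => (hc _ j).1 _, ?_, ?_⟩
  · have h1 : (univ.filter (fun x : Fin m => c (e.symm x).1.1 (e.symm x).1.2 j ≠ 0)).card ≤
        (((range (i + 1)) ×ˢ (univ : Finset (Fin (2 ^ T.a)))).filter
          (fun p => c p.1 p.2 j ≠ 0)).card := by
      refine card_le_card_of_injOn (fun x => (e.symm x).1) ?_ ?_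
      · intro x hx
        simp only [coe_filter, mem_univ, true_and, Set.mem_ofPred_eq] at hx ⊢
        have h2 := (mem_product.1 (e.symm x).2).1
        exact ⟨mem_product.2 ⟨h2, mem_univ _⟩, hx⟩
      · intro x _ x' _ h
        exact e.symm.injective (Subtype.ext h)
    refine h1.trans ?_
    have h2 : (((range (i + 1)) ×ˢ (univ : Finset (Fin (2 ^ T.a)))).filter
          (fun p => c p.1 p.2 j ≠ 0)).card =
        ∑ s ∈ range (i + 1), (univ.filter (fun ν => c s ν j ≠ 0)).card := by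
      rw [card_filter, sum_product]
      exact sum_congr rfl fun s _ => (card_filter _ _).symm
    rw [h2]
    calc _ ≤ ∑ s ∈ range (i + 1), T.k i ^ 2 := sum_le_sum fun s hs =>
          sparse_card_le hc hOK hg hi s (by rw [mem_range] at hs; omega) j
      _ = (i + 1) * T.k i ^ 2 := by simp
      _ ≤ T.k i * T.k i ^ 2 := Nat.mul_le_mul_right _ h3
      _ = T.k i ^ 3 := by ring
  · have h1 : ∑ x : Fin m, c (e.symm x).1.1 (e.symm x).1.2 j ^ 2 =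
        ∑ p : Ix T c Lo i, c p.1.1 p.1.2 j ^ 2 :=
      Equiv.sum_comp e.symm (fun p : Ix T c Lo i => c p.1.1 p.1.2 j ^ 2)
    have h2 : ∑ p : Ix T c Lo i, c p.1.1 p.1.2 j ^ 2 =
        ∑ p ∈ range (i + 1) ×ˢ Sf T c Lo i, c p.1 p.2 j ^ 2 :=
      sum_coe_sort (range (i + 1) ×ˢ Sf T c Lo i) (fun p => c p.1 p.2 j ^ 2)
    rw [h1, h2, sum_product]
    have h4 : ∑ s ∈ range (i + 1), ∑ ν ∈ Sf T c Lo i, c s ν j ^ 2 ≤ ((T.top : ℝ) + 1) * B ^ 2 := by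
      calc _ ≤ ∑ s ∈ range (i + 1), B ^ 2 := sum_le_sum fun s _ =>
            (sum_le_sum_of_subset_of_nonneg (subset_univ _) fun _ _ _ => sq_nonneg _).trans
              (hc s j).2.2
        _ = ((i + 1 : ℕ) : ℝ) * B ^ 2 := by simp
        _ ≤ ((T.top : ℝ) + 1) * B ^ 2 := by
            refine mul_le_mul_of_nonneg_right ?_ (sq_nonneg _)
            have : i + 1 ≤ T.top + 1 := by omega
            exact_mod_cast this
    refine h4.trans (le_trans ?_ (pow_le_pow_left₀ (by linarith [HH_ge T.K T.top hB]) hH 2))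
    unfold HH
    have e1 : (1 : ℝ) ≤ T.top + 1 := by linarith [Nat.cast_nonneg (α := ℝ) T.top]
    have e2 : (1 : ℝ) ≤ ((T.K : ℝ) + 1) ^ T.top :=
      one_le_pow₀ (by linarith [Nat.cast_nonneg (α := ℝ) T.K])
    have e3 : (T.top : ℝ) + 1 ≤ ((T.top : ℝ) + 1) ^ 2 * (((T.K : ℝ) + 1) ^ T.top) ^ 2 := by
      have e4 : (1 : ℝ) ≤ (((T.K : ℝ) + 1) ^ T.top) ^ 2 := one_le_pow₀ e2
      nlinarith
    calc ((T.top : ℝ) + 1) * B ^ 2 ≤
        (((T.top : ℝ) + 1) ^ 2 * (((T.K : ℝ) + 1) ^ T.top) ^ 2) * B ^ 2 :=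
          mul_le_mul_of_nonneg_right e3 (sq_nonneg _)
      _ = _ := by ring

/-- the leak inequality for all columns, by sampling -/
theorem main_ineq (hsamp : S_SAMPLE) (hc : T.Sparse c B) {H ε C₀ : ℝ} {g Γ : ℕ}
    (hOK : T.OK H ε C₀ g Γ) (hg : 1 ≤ g) (hJ : 1 ≤ J) {i s' : ℕ} (hi : i < T.top) (hsi : s' ≤ i)
    (hB : 1 ≤ B) (hN : Num T.a (T.k i) (T.n i) (Lo i) (r i) (Hi i) T.top C₀)
    (hH : HH T.K T.top B ≤ H) (hε0 : 0 < ε) (hε1 : ε < 1)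
    (R : Finset (Fin (2 ^ T.a))) (hR : ∀ ν ∈ R, Hi i * occ c i ν < J) :
    (1 - ε) * hs (rres R (T.accJ c s')) ≤
      hs (fun b j => T.GM i (rres R (T.accJ c s')) b j -
        rowmap (proj (Vf T c Lo i)) (T.GM i (rres R (T.accJ c s'))) b j) +
      J * (ε + HH T.K T.top B ^ 2 * (1 / T.k i)) := by
  obtain ⟨M, hM⟩ : ∃ M, M = rres R (T.accJ c s') := ⟨_, rfl⟩
  obtain ⟨V, hV⟩ : ∃ V, V = Vf T c Lo i := ⟨_, rfl⟩
  rw [← hM, ← hV]
  have hcol := fun j => col_le hc hi hsi R j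
  have hSG := fun j => col_SG hc hOK hg hi hsi hB hN hH R j
  rw [← hM] at hcol hSG
  obtain ⟨m, hm⟩ : ∃ m, m = Fintype.card (Ix T c Lo i) := ⟨_, rfl⟩
  have e : Ix T c Lo i ≃ Fin m := hm ▸ Fintype.equivFin (Ix T c Lo i)
  have hmle : m ≤ T.k i ^ 4 * Lo i := hm ▸ card_Ix_le hJ hc hOK hg hi hN
  -- coefficients
  have hA : ∀ b, ∃ A : Fin m → ℝ, ∀ j, rowmap (proj V) (T.GM i M) b j =
      ∑ x, A x * c (e.symm x).1.1 (e.symm x).1.2 j := by
    intro b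
    have h1 : proj V (T.GM i M b) ∈ V := proj_mem _ _
    rw [hV, Vf_eq hi, Submodule.mem_span_range_iff_exists_fun] at h1
    obtain ⟨A, hA⟩ := h1
    refine ⟨fun x => A (e.symm x), fun j => ?_⟩
    unfold rowmap
    rw [hV, Vf_eq hi, ← hA, Finset.sum_apply]
    rw [← Equiv.sum_comp e.symm]
    rfl
  choose A hA using hA
  have hrm := hOK.rm i hi
  have hleak := hrm.leak (r i) m hN.up hN.c1 (hN.c2 hmle)
  have hk : (1 : ℝ) ≤ T.k i := by exact_mod_cast hN.k1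
  have hH1 := HH_ge T.K T.top hB
  have hHi : (1 : ℝ) ≤ Hi i := by exact_mod_cast hN.Hi1
  have hJ' : (0 : ℝ) < J := by exact_mod_cast hJ
  have hS := hsamp.1 J (r i) (fun j => (1 - ε) * ∑ ν, M ν j ^ 2)
    (fun j => ∑ b, (T.GM i M b j - rowmap (proj V) (T.GM i M) b j) ^ 2) (fun _ => 0)
    (HH T.K T.top B ^ 2) ((T.k i : ℝ) ^ 3 / Hi i) ε 0
    (fun j j' => ∃ ν, M ν j ≠ 0 ∧ M ν j' ≠ 0) hJ hN.r1
    (fun j => mul_nonneg (by linarith) (sum_nonneg fun ν _ => sq_nonneg _))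
    (fun j => ?_) (fun j => sum_nonneg fun b _ => sq_nonneg _) (fun _ => le_rfl)
    (by positivity) hε0.le ?_ (by simp) ?_
  · -- conclusion
    have e1 : ∑ j, (1 - ε) * ∑ ν, M ν j ^ 2 = (1 - ε) * hs M := by
      rw [← mul_sum, sum_comm]
      rfl
    have e2 : ∑ j, ∑ b, (T.GM i M b j - rowmap (proj V) (T.GM i M) b j) ^ 2 =
        hs (fun b j => T.GM i M b j - rowmap (proj V) (T.GM i M) b j) := by
      rw [sum_comm]
      rfl
    rw [e1, e2, zero_div, add_zero] at hS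
    have e3 : HH T.K T.top B ^ 2 * (r i : ℝ) ^ 2 * ((T.k i : ℝ) ^ 3 / Hi i) ≤
        HH T.K T.top B ^ 2 * (1 / T.k i) := by
      rw [mul_assoc]
      refine mul_le_mul_of_nonneg_left ?_ (by positivity)
      rw [← mul_div_assoc, div_le_div_iff₀ (by linarith) (by linarith), one_mul]
      exact_mod_cast hN.c3
    rw [div_add' _ _ _ hJ'.ne', div_add' _ _ _ hJ'.ne', div_le_div_iff_of_pos_right hJ'] at hS
    nlinarith
  · -- upper bound for f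
    have h1 := hcol j
    have h2 : 0 ≤ ∑ ν, M ν j ^ 2 := sum_nonneg fun ν _ => sq_nonneg _
    nlinarith
  · -- bad pairs
    have h1 := pairs_le c i (T.k i ^ 2) (Hi i) (sparse_card_le hc hOK hg hi) R hR M (by
      intro ν j h
      rw [hM] at h
      exact ⟨(rres_ne h).1, acc_supp hsi (rres_ne h).2⟩)
    have h3 : i + 1 ≤ T.k i := by
      have := hN.top_le
      omega
    have h2 : Hi i * ((univ : Finset (Fin J × Fin J)).filter
        (fun p => ∃ ν, M ν p.1 ≠ 0 ∧ M ν p.2 ≠ 0)).card ≤ J * (J * T.k i ^ 3) := by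
      refine h1.trans (Nat.mul_le_mul_left _ (Nat.mul_le_mul_left _ ?_))
      calc (i + 1) * T.k i ^ 2 ≤ T.k i * T.k i ^ 2 := Nat.mul_le_mul_right _ h3
        _ = T.k i ^ 3 := by ring
    rw [div_mul_eq_mul_div, le_div_iff₀ (by linarith)]
    have h4 : ((Hi i * ((univ : Finset (Fin J × Fin J)).filter
        (fun p => ∃ ν, M ν p.1 ≠ 0 ∧ M ν p.2 ≠ 0)).card : ℕ) : ℝ) ≤
        ((J * (J * T.k i ^ 3) : ℕ) : ℝ) := by exact_mod_cast h2
    push_cast at h4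
    have h5 : (((univ : Finset (Fin J × Fin J)).filter
        (fun p => ∃ ν, M ν p.1 ≠ 0 ∧ M ν p.2 ≠ 0)).card : ℝ) * Hi i ≤
        (T.k i : ℝ) ^ 3 * (J : ℝ) ^ 2 := by linarith
    convert h5
    all_goals rfl
  · -- good samples
    intro τ hτ
    have h1 := hleak (fun t ν => M ν (τ t)) (fun t x => c (e.symm x).1.1 (e.symm x).1.2 (τ t))
      (fun t => hSG (τ t)) (fun t => d_SG hc hOK hg hi hB hN hH m e (τ t)) (by
        intro t t' htt ν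
        by_contra hcon
        push Not at hcon
        exact hτ t t' htt ⟨ν, hcon.1, hcon.2⟩) A
    have h2 : ∑ t, ∑ b, (∑ ν, T.G i b ν * M ν (τ t) -
        ∑ x, A b x * c (e.symm x).1.1 (e.symm x).1.2 (τ t)) ^ 2 =
        ∑ l, ∑ b, (T.GM i M b (τ l) - rowmap (proj V) (T.GM i M) b (τ l)) ^ 2 := by
      refine sum_congr rfl fun t _ => sum_congr rfl fun b _ => ?_
      rw [hA b (τ t)]
      rfl
    rw [h2] at h1
    rw [← mul_sum, add_zero]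
    linarith

/-- `|M_j|_1² ≤ k³ H²` -/
theorem col_l1 (hc : T.Sparse c B) {H ε C₀ : ℝ} {g Γ : ℕ} (hOK : T.OK H ε C₀ g Γ)
    (hg : 1 ≤ g) {i s' : ℕ} (hi : i < T.top) (hsi : s' ≤ i)
    (hN : Num T.a (T.k i) (T.n i) (Lo i) (r i) (Hi i) T.top C₀)
    (R : Finset (Fin (2 ^ T.a))) (j : Fin J) :
    (∑ ν, |rres R (T.accJ c s') ν j|) ^ 2 ≤ (T.k i : ℝ) ^ 3 * HH T.K T.top B ^ 2 := by
  have h1 : ∑ ν, |rres R (T.accJ c s') ν j| = ∑ ν ∈ supp c i j, |rres R (T.accJ c s') ν j| := by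
    refine (sum_subset (subset_univ _) fun ν _ hν => ?_).symm
    by_contra hcon
    exact hν (acc_supp hsi (rres_ne (abs_ne_zero.1 hcon)).2)
  rw [h1]
  refine sq_sum_le_card_mul_sum_sq.trans ?_
  have h2 : ∑ ν ∈ supp c i j, |rres R (T.accJ c s') ν j| ^ 2 ≤ HH T.K T.top B ^ 2 := by
    refine le_trans ?_ (col_le hc hi hsi R j)
    simp only [sq_abs]
    exact sum_le_sum_of_subset_of_nonneg (subset_univ _) fun _ _ _ => sq_nonneg _
  have h3 : ((supp c i j).card : ℝ) ≤ (T.k i : ℝ) ^ 3 := by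
    exact_mod_cast supp_le hc hOK hg hi hN j
  exact mul_le_mul h3 h2 (sum_nonneg fun _ _ => sq_nonneg _) (by positivity)

theorem leak_one (hsamp : S_SAMPLE) (hc : T.Sparse c B) {H ε C₀ : ℝ} {g Γ : ℕ}
    (hOK : T.OK H ε C₀ g Γ) (hg : 1 ≤ g) (hJ : 1 ≤ J) {i s' : ℕ} (hi : i < T.top) (hsi : s' ≤ i)
    (hB : 1 ≤ B) (hN : Num T.a (T.k i) (T.n i) (Lo i) (r i) (Hi i) T.top C₀)
    (hH : HH T.K T.top B ≤ H) (hε0 : 0 < ε) (hε1 : ε < 1)
    (R : Finset (Fin (2 ^ T.a))) (hR : ∀ ν ∈ R, Hi i * occ c i ν < J) :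
    hs (rowmap (proj (Vf T c Lo i)) (T.GM i (rres R (T.accJ c s')))) ≤
      J * (ε * (2 * HH T.K T.top B ^ 2 + 1) + 9 * HH T.K T.top B ^ 2 / T.k i) := by
  have h1 := main_ineq hsamp hc hOK hg hJ hi hsi hB hN hH hε0 hε1 R hR
  have h2 := hs_pyth (Vf T c Lo i) (T.GM i (rres R (T.accJ c s')))
  obtain ⟨M, hM⟩ : ∃ M, M = rres R (T.accJ c s') := ⟨_, rfl⟩
  have hcol := fun j => col_le hc hi hsi R j
  have hl1 := fun j => col_l1 hc hOK hg hi hsi hN R j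
  rw [← hM] at h1 h2 hcol hl1 ⊢
  have hk : (1 : ℝ) ≤ T.k i := by exact_mod_cast hN.k1
  have hrm := hOK.rm i hi
  obtain ⟨η, hη⟩ : ∃ η, η = 8 * Real.sqrt ((T.a : ℝ) / T.n i) := ⟨_, rfl⟩
  have hη0 : 0 ≤ η := by rw [hη]; positivity
  have h3 : hs (T.GM i M) ≤ (1 + ε) * hs M + η * ∑ j, (∑ ν, |M ν j|) ^ 2 := by
    have e1 : hs (T.GM i M) = ∑ j, ∑ b, (∑ ν, T.G i b ν * M ν j) ^ 2 := by
      unfold hs Tower.GM
      exact sum_comm
    have e2 : hs M = ∑ j, ∑ ν, M ν j ^ 2 := by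
      unfold hs
      exact sum_comm
    rw [e1, e2, mul_sum, mul_sum, ← sum_add_distrib]
    refine sum_le_sum fun j _ => ?_
    exact gram_le (T.G i) ε η hη0 hrm.diag (fun ν μ h => by rw [hη]; exact hrm.off ν μ h) _
  have h4 : η * ∑ j, (∑ ν, |M ν j|) ^ 2 ≤ J * (8 * HH T.K T.top B ^ 2 / T.k i) := by
    calc η * ∑ j, (∑ ν, |M ν j|) ^ 2 ≤ η * ∑ _j : Fin J, (T.k i : ℝ) ^ 3 * HH T.K T.top B ^ 2 :=
          mul_le_mul_of_nonneg_left (sum_le_sum fun j _ => hl1 j) hη0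
      _ = J * (8 * HH T.K T.top B ^ 2) *
          (Real.sqrt ((T.a : ℝ) / T.n i) * (T.k i : ℝ) ^ 3) := by
          rw [sum_const, card_univ, Fintype.card_fin, nsmul_eq_mul, hη]
          ring
      _ ≤ J * (8 * HH T.K T.top B ^ 2) * (1 / T.k i) :=
          mul_le_mul_of_nonneg_left hN.c5 (by positivity)
      _ = _ := by ring
  have h5 : hs M ≤ J * HH T.K T.top B ^ 2 := by
    have e2 : hs M = ∑ j, ∑ ν, M ν j ^ 2 := by
      unfold hs
      exact sum_comm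
    rw [e2]
    calc _ ≤ ∑ _j : Fin J, HH T.K T.top B ^ 2 := sum_le_sum fun j _ => hcol j
      _ = _ := by rw [sum_const, card_univ, Fintype.card_fin, nsmul_eq_mul]
  have h6 : ε * hs M ≤ ε * (J * HH T.K T.top B ^ 2) := mul_le_mul_of_nonneg_left h5 hε0.le
  have h7 : J * (ε * (2 * HH T.K T.top B ^ 2 + 1) + 9 * HH T.K T.top B ^ 2 / T.k i) =
      2 * (ε * (J * HH T.K T.top B ^ 2)) + J * (8 * HH T.K T.top B ^ 2 / T.k i) +
        J * (ε + HH T.K T.top B ^ 2 * (1 / T.k i)) := by ring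
  rw [h7]
  linarith

theorem leak_two (hc : T.Sparse c B) {H ε C₀ : ℝ} {g Γ : ℕ}
    (hOK : T.OK H ε C₀ g Γ) (hg : 1 ≤ g) (hJ : 1 ≤ J) {i s' : ℕ} (hi : i < T.top) (hsi : s' ≤ i)
    (hB : 1 ≤ B) (hN : Num T.a (T.k i) (T.n i) (Lo i) (r i) (Hi i) T.top C₀)
    (R : Finset (Fin (2 ^ T.a))) (hR : ∀ ν ∈ R, Hi i * occ c i ν < J) :
    hs (rowmap (proj (Vf T c Lo i)) (rres R (T.accJ c s'))) ≤
      J * (HH T.K T.top B ^ 2 / T.k i) := by
  obtain ⟨M, hM⟩ : ∃ M, M = rres R (T.accJ c s') := ⟨_, rfl⟩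
  have hcol := fun j => col_le hc hi hsi R j
  have hl1 := fun j => col_l1 hc hOK hg hi hsi hN R j
  rw [← hM] at hcol hl1 ⊢
  have hk : (1 : ℝ) ≤ T.k i := by exact_mod_cast hN.k1
  have hHi : (1 : ℝ) ≤ Hi i := by exact_mod_cast hN.Hi1
  have hJ' : (0 : ℝ) < J := by exact_mod_cast hJ
  have hH1 := HH_ge T.K T.top hB
  obtain ⟨h, hh⟩ : ∃ h, h = HH T.K T.top B := ⟨_, rfl⟩
  rw [← hh] at hcol hl1 hH1 ⊢
  obtain ⟨D, hD⟩ : ∃ D, D = h * Real.sqrt (J / Hi i) := ⟨_, rfl⟩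
  have hD0 : 0 ≤ D := by rw [hD]; positivity
  have hrow : ∀ ν, ∑ j, M ν j ^ 2 ≤ D ^ 2 := by
    intro ν
    rw [hD, mul_pow, Real.sq_sqrt (by positivity)]
    by_cases hν : ν ∈ R
    · have h1 : ∑ j, M ν j ^ 2 = ∑ j ∈ univ.filter (fun j => ∃ t ∈ range (i + 1), c t ν j ≠ 0),
          M ν j ^ 2 := by
        refine (sum_subset (subset_univ _) fun j _ hj => ?_).symm
        by_contra hcon
        apply hj
        have h2 : M ν j ≠ 0 := fun h => hcon (by rw [h]; ring)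
        rw [hM] at h2
        have h3 := acc_supp hsi (rres_ne h2).2
        simp only [supp, mem_filter, mem_univ, true_and] at h3
        simp only [mem_filter, mem_univ, true_and]
        exact h3
      have h2 : ∀ j, M ν j ^ 2 ≤ h ^ 2 := fun j =>
        (single_le_sum (f := fun μ => M μ j ^ 2) (fun μ _ => sq_nonneg _) (mem_univ ν)).trans
          (hcol j)
      have h3 : ∑ j, M ν j ^ 2 ≤ (occ c i ν : ℝ) * h ^ 2 := by
        rw [h1]
        refine (sum_le_sum fun j _ => h2 j).trans (le_of_eq ?_)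
        rw [sum_const, nsmul_eq_mul]
        rfl
      have h4 : (Hi i : ℝ) * occ c i ν ≤ J := by exact_mod_cast (hR ν hν).le
      have h5 : (occ c i ν : ℝ) ≤ J / Hi i := by
        rw [le_div_iff₀ (by linarith)]
        linarith
      calc _ ≤ (occ c i ν : ℝ) * h ^ 2 := h3
        _ ≤ (J / Hi i) * h ^ 2 := mul_le_mul_of_nonneg_right h5 (sq_nonneg _)
        _ = _ := by ring
    · have h1 : ∀ j, M ν j = 0 := fun j => by
        by_contra hcon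
        rw [hM] at hcon
        exact hν (rres_ne hcon).1
      simp only [h1]
      rw [zero_pow two_ne_zero, sum_const_zero]
      positivity
  have h1 := hs_proj_le (Vf T c Lo i) M D hD0 hrow
  have h2 := rho_proj_sq_le (Vf T c Lo i) M
  obtain ⟨m, hm⟩ : ∃ m, m = Fintype.card (Ix T c Lo i) := ⟨_, rfl⟩
  have hmle : m ≤ T.k i ^ 4 * Lo i := hm ▸ card_Ix_le hJ hc hOK hg hi hN
  have hfin : (finrank ℝ (Vf T c Lo i) : ℝ) ≤ m := by
    exact_mod_cast hm ▸ finrank_Vf_le hi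
  have h3 : rho (rowmap (proj (Vf T c Lo i)) M) ^ 2 ≤ m * (J * ((T.k i : ℝ) ^ 3 * h ^ 2)) := by
    refine h2.trans (mul_le_mul hfin ?_ (by positivity) (Nat.cast_nonneg _))
    calc _ ≤ ∑ _j : Fin J, (T.k i : ℝ) ^ 3 * h ^ 2 := sum_le_sum fun j _ => hl1 j
      _ = _ := by rw [sum_const, card_univ, Fintype.card_fin, nsmul_eq_mul]
  have h4 : (D * rho (rowmap (proj (Vf T c Lo i)) M)) ^ 2 ≤ (J * (h ^ 2 / T.k i)) ^ 2 := by
    rw [mul_pow, hD, mul_pow, Real.sq_sqrt (by positivity)]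
    calc _ ≤ h ^ 2 * (J / Hi i) * (m * (J * ((T.k i : ℝ) ^ 3 * h ^ 2))) :=
          mul_le_mul_of_nonneg_left h3 (by positivity)
      _ = (J * h ^ 2) ^ 2 * ((m * (T.k i : ℝ) ^ 3) / Hi i) := by ring
      _ ≤ (J * h ^ 2) ^ 2 * (1 / (T.k i : ℝ) ^ 2) := by
          refine mul_le_mul_of_nonneg_left ?_ (sq_nonneg _)
          rw [div_le_div_iff₀ (by linarith) (by positivity), one_mul]
          exact_mod_cast hN.c4 hmle
      _ = _ := by ring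
  exact h1.trans (abs_le_of_sq_le_sq' h4 (by positivity)).2

theorem main : S_SAMPLE → S_LEAK := by
  intro hsamp K top B δ hB hδ
  obtain ⟨h, hh⟩ : ∃ h, h = HH K top B := ⟨_, rfl⟩
  have hh1 : 1 ≤ h := hh ▸ HH_ge K top hB
  refine ⟨h, δ / (2 * (2 * h ^ 2 + 1)), hh1, by positivity, ?_⟩
  intro C₀ hC₀
  obtain ⟨Γ, hΓ⟩ := exists_nat_ge (max (max (top + 1 : ℝ) C₀) (18 * h ^ 2 / δ))
  refine ⟨Γ, ?_⟩
  intro H' ε g T hg hH' hε hεle hε1 hK htop hOK J c Lo r Hi δ' hJ hc hw i hi s' hs' R hR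
  have hg1 : 1 ≤ g := by omega
  have g1 : T.top + 1 ≤ Γ := by
    rw [htop]
    have : (top + 1 : ℝ) ≤ Γ := (le_max_left _ _).trans ((le_max_left _ _).trans hΓ)
    exact_mod_cast this
  have g2 : C₀ ≤ Γ := (le_max_right _ _).trans ((le_max_left _ _).trans hΓ)
  have g3 : 18 * h ^ 2 / δ ≤ Γ := (le_max_right _ _).trans hΓ
  have hN := num_of hOK hg1 g1 g2 hw (htop ▸ hi)
  have hk : (1 : ℝ) ≤ T.k i := by exact_mod_cast hN.k1
  have hJ' : (0 : ℝ) < J := by exact_mod_cast hJ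
  have hΓk : (Γ : ℝ) ≤ T.k i := by exact_mod_cast hOK.base.trans (hOK.k_ge i)
  have hhT : HH T.K T.top B = h := by rw [hK, htop, hh]
  have g4 : 9 * h ^ 2 / T.k i ≤ δ / 2 := by
    have : 18 * h ^ 2 ≤ T.k i * δ := by
      have := g3.trans hΓk
      rwa [div_le_iff₀ hδ] at this
    rw [div_le_div_iff₀ (by linarith) (by norm_num)]
    linarith
  have hi' : i < T.top := htop ▸ hi
  constructor
  · have h1 := leak_one hsamp hc hOK hg1 hJ hi' hs' hB hN (by rw [hhT]; exact hH') hε hε1 R hR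
    rw [hhT] at h1
    refine h1.trans ?_
    rw [mul_comm δ]
    refine mul_le_mul_of_nonneg_left ?_ hJ'.le
    have h2 : ε * (2 * h ^ 2 + 1) ≤ δ / 2 := by
      rw [le_div_iff₀ (by positivity)] at hεle
      linarith
    linarith
  · have h1 := leak_two hc hOK hg1 hJ hi' hs' hB hN R hR
    rw [hhT] at h1
    refine h1.trans ?_
    rw [mul_comm δ]
    refine mul_le_mul_of_nonneg_left ?_ hJ'.le
    have h2 : h ^ 2 / T.k i ≤ 9 * h ^ 2 / T.k i :=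
      div_le_div_of_nonneg_right (by nlinarith [sq_nonneg h]) (by linarith)
    linarith

end main

end Run7.h882.NEG
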