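import Pool.Agent.Run7.h35.NEG.Iface2

/-! Projection lemmas for the piece LEAK (project NEG of helper35, MP_6c92e3_an). -/

set_option autoImplicit false

namespace Run7.h882.NEG

open Run7.h35.NEG Finset Module

section P

variable {J : Type} [Fintype J]

theorem proj_trace [DecidableEq J] (V : Submodule ℝ (J → ℝ)) :
    ∑ j, proj V (Pi.single j 1) j = finrank ℝ V := by
  have h : LinearMap.IsProj V (proj V) := ⟨fun v => proj_mem V v, fun v hv => proj_of_mem hv⟩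
  rw [← h.trace, LinearMap.trace_eq_matrix_trace ℝ (Pi.basisFun ℝ J), Matrix.trace]
  refine sum_congr rfl fun j _ => ?_
  simp [LinearMap.toMatrix_apply]

theorem proj_inner_self (V : Submodule ℝ (J → ℝ)) (v : J → ℝ) :
    ∑ j, proj V v j * v j = ∑ j, proj V v j ^ 2 := by
  have h := proj_symm V v (proj V v)
  rw [proj_idem] at h
  have h2 : ∑ j, proj V v j * proj V v j = ∑ j, proj V v j ^ 2 :=
    sum_congr rfl fun j _ => by ring
  have h3 : ∑ j, proj V v j * v j = ∑ j, v j * proj V v j :=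
    sum_congr rfl fun j _ => by ring
  rw [h3, ← h, h2]

theorem proj_pyth (V : Submodule ℝ (J → ℝ)) (v : J → ℝ) :
    ∑ j, v j ^ 2 = ∑ j, proj V v j ^ 2 + ∑ j, (v j - proj V v j) ^ 2 := by
  have h1 := proj_inner_self V v
  have h2 : ∑ j, (v j - proj V v j) ^ 2 =
      ∑ j, v j ^ 2 - 2 * ∑ j, proj V v j * v j + ∑ j, proj V v j ^ 2 := by
    rw [mul_sum, ← sum_sub_distrib, ← sum_add_distrib]
    exact sum_congr rfl fun j _ => by ring
  rw [h2, h1]
  ring

theorem proj_apply_sq_le [DecidableEq J] (V : Submodule ℝ (J → ℝ)) {x : J → ℝ} (hx : x ∈ V)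
    (j : J) : x j ^ 2 ≤ proj V (Pi.single j 1) j * ∑ t, x t ^ 2 := by
  have h1 : ∑ t, x t * (Pi.single j (1:ℝ) : J → ℝ) t = x j := by
    rw [sum_eq_single j]
    · simp
    · intro t _ ht
      simp [Pi.single_eq_of_ne ht]
    · simp
  have h2 : x j = ∑ t, x t * proj V (Pi.single j 1) t := by
    have := proj_symm V x (Pi.single j 1)
    rw [proj_of_mem hx, h1] at this
    exact this
  have h3 : ∑ t, proj V (Pi.single j (1:ℝ)) t ^ 2 = proj V (Pi.single j 1) j := by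
    rw [← proj_inner_self, sum_eq_single j]
    · simp
    · intro t _ ht
      simp [Pi.single_eq_of_ne ht]
    · simp
  have h4 := sum_mul_sq_le_sq_mul_sq univ x (proj V (Pi.single j 1))
  rw [← h2, h3] at h4
  linarith [mul_comm (∑ t, x t ^ 2) (proj V (Pi.single j 1) j)]

theorem proj_single_nonneg [DecidableEq J] (V : Submodule ℝ (J → ℝ)) (j : J) :
    0 ≤ proj V (Pi.single j 1) j := by
  have h3 : ∑ t, proj V (Pi.single j (1:ℝ)) t ^ 2 = proj V (Pi.single j 1) j := by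
    rw [← proj_inner_self, sum_eq_single j]
    · simp
    · intro t _ ht
      simp [Pi.single_eq_of_ne ht]
    · simp
  rw [← h3]
  positivity

end P

section rows

variable {ι : Type} [Fintype ι] {J : ℕ}

/-- `rho (P M)² ≤ rank · ∑_j |M_j|_1²` -/
theorem rho_proj_sq_le (V : Submodule ℝ (Fin J → ℝ)) (M : ι → Fin J → ℝ) :
    rho (rowmap (proj V) M) ^ 2 ≤ finrank ℝ V * ∑ j, (∑ ν, |M ν j|) ^ 2 := by
  obtain ⟨t, ht⟩ : ∃ t : Fin J → ℝ, t = fun j => proj V (Pi.single j 1) j := ⟨_, rfl⟩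
  have ht0 : ∀ j, 0 ≤ t j := fun j => by rw [ht]; exact proj_single_nonneg V j
  have hts : ∑ j, t j = finrank ℝ V := by rw [ht]; exact proj_trace V
  have hN : ∀ ν, Real.sqrt (∑ j, proj V (M ν) j ^ 2) ≤ ∑ j, Real.sqrt (t j) * |M ν j| := by
    intro ν
    obtain ⟨N, hNd⟩ : ∃ N, N = Real.sqrt (∑ j, proj V (M ν) j ^ 2) := ⟨_, rfl⟩
    have hN2 : N ^ 2 = ∑ j, proj V (M ν) j ^ 2 := by
      rw [hNd]; exact Real.sq_sqrt (by positivity)
    have hN0 : 0 ≤ N := by rw [hNd]; exact Real.sqrt_nonneg _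
    rw [← hNd]
    have hle : N ^ 2 ≤ N * ∑ j, Real.sqrt (t j) * |M ν j| := by
      rw [hN2, ← proj_inner_self, mul_sum]
      refine sum_le_sum fun j _ => ?_
      have h1 : |proj V (M ν) j| ≤ N * Real.sqrt (t j) := by
        have h2 := proj_apply_sq_le V (proj_mem V (M ν)) j
        rw [← hN2] at h2
        have h3 : proj V (M ν) j ^ 2 ≤ (N * Real.sqrt (t j)) ^ 2 := by
          rw [mul_pow, Real.sq_sqrt (ht0 j), ht]
          linarith
        exact abs_le_of_sq_le_sq h3 (by positivity)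
      calc proj V (M ν) j * M ν j ≤ |proj V (M ν) j * M ν j| := le_abs_self _
        _ = |proj V (M ν) j| * |M ν j| := abs_mul _ _
        _ ≤ (N * Real.sqrt (t j)) * |M ν j| := mul_le_mul_of_nonneg_right h1 (abs_nonneg _)
        _ = N * (Real.sqrt (t j) * |M ν j|) := by ring
    rcases hN0.eq_or_lt with h | h
    · rw [← h]
      exact sum_nonneg fun j _ => by positivity
    · rw [sq] at hle
      exact le_of_mul_le_mul_left hle h
  have h1 : rho (rowmap (proj V) M) ≤ ∑ j, Real.sqrt (t j) * ∑ ν, |M ν j| := by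
    unfold rho rowmap
    refine (sum_le_sum fun ν _ => hN ν).trans (le_of_eq ?_)
    rw [sum_comm]
    exact sum_congr rfl fun j _ => (mul_sum _ _ _).symm
  have h2 := pow_le_pow_left₀ (rho_nonneg _) h1 2
  refine h2.trans ((sum_mul_sq_le_sq_mul_sq univ _ _).trans (le_of_eq ?_))
  congr 1
  rw [← hts]
  exact sum_congr rfl fun j _ => Real.sq_sqrt (ht0 j)

/-- `hs (P M) ≤ D · rho (P M)` if the rows of `M` have norm at most `D` -/
theorem hs_proj_le (V : Submodule ℝ (Fin J → ℝ)) (M : ι → Fin J → ℝ) (D : ℝ) (hD : 0 ≤ D)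
    (h : ∀ ν, ∑ j, M ν j ^ 2 ≤ D ^ 2) :
    hs (rowmap (proj V) M) ≤ D * rho (rowmap (proj V) M) := by
  unfold hs rho rowmap
  rw [mul_sum]
  refine sum_le_sum fun ν _ => ?_
  have h1 : Real.sqrt (∑ j, proj V (M ν) j ^ 2) ≤ D := by
    rw [← Real.sqrt_sq hD]
    exact Real.sqrt_le_sqrt ((proj_norm_le V (M ν)).trans (h ν))
  have h2 : ∑ j, proj V (M ν) j ^ 2 =
      Real.sqrt (∑ j, proj V (M ν) j ^ 2) * Real.sqrt (∑ j, proj V (M ν) j ^ 2) :=
    (Real.mul_self_sqrt (by positivity)).symm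
  calc ∑ j, proj V (M ν) j ^ 2 =
      Real.sqrt (∑ j, proj V (M ν) j ^ 2) * Real.sqrt (∑ j, proj V (M ν) j ^ 2) := h2
    _ ≤ D * Real.sqrt (∑ j, proj V (M ν) j ^ 2) :=
        mul_le_mul_of_nonneg_right h1 (Real.sqrt_nonneg _)

theorem hs_pyth (V : Submodule ℝ (Fin J → ℝ)) (M : ι → Fin J → ℝ) :
    hs M = hs (rowmap (proj V) M) + hs (fun b j => M b j - rowmap (proj V) M b j) := by
  unfold hs rowmap
  rw [← sum_add_distrib]
  exact sum_congr rfl fun b _ => proj_pyth V (M b)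

end rows

/-- the columns of `G m` for one vector `m` -/
theorem gram_le {n N : ℕ} (G : Fin n → Fin N → ℝ) (ε η : ℝ) (hη : 0 ≤ η)
    (hd : ∀ ν, |∑ b, G b ν ^ 2 - 1| ≤ ε) (ho : ∀ ν μ, ν ≠ μ → |∑ b, G b ν * G b μ| ≤ η)
    (m : Fin N → ℝ) :
    ∑ b, (∑ ν, G b ν * m ν) ^ 2 ≤ (1 + ε) * ∑ ν, m ν ^ 2 + η * (∑ ν, |m ν|) ^ 2 := by
  have h1 : ∑ b, (∑ ν, G b ν * m ν) ^ 2 = ∑ ν, ∑ μ, m ν * m μ * ∑ b, G b ν * G b μ := by
    have : ∀ b, (∑ ν, G b ν * m ν) ^ 2 = ∑ ν, ∑ μ, m ν * m μ * (G b ν * G b μ) := by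
      intro b
      rw [sq, sum_mul_sum]
      exact sum_congr rfl fun ν _ => sum_congr rfl fun μ _ => by ring
    simp only [this]
    rw [sum_comm]
    refine sum_congr rfl fun ν _ => ?_
    rw [sum_comm]
    exact sum_congr rfl fun μ _ => (mul_sum _ _ _).symm
  have h2 : ∀ ν μ, m ν * m μ * ∑ b, G b ν * G b μ ≤
      (if ν = μ then (1 + ε) * m ν ^ 2 else 0) + η * (|m ν| * |m μ|) := by
    intro ν μ
    by_cases h : ν = μ
    · subst h
      rw [if_pos rfl]
      have h3 : ∑ b, G b ν * G b ν = ∑ b, G b ν ^ 2 := sum_congr rfl fun b _ => by ring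
      rw [h3]
      have h4 := (abs_le.1 (hd ν)).2
      have h5 : m ν * m ν * ∑ b, G b ν ^ 2 ≤ m ν ^ 2 * (1 + ε) := by
        rw [← sq]
        exact mul_le_mul_of_nonneg_left (by linarith) (sq_nonneg _)
      have h6 : 0 ≤ η * (|m ν| * |m ν|) := by positivity
      linarith
    · rw [if_neg h, zero_add]
      calc m ν * m μ * ∑ b, G b ν * G b μ ≤ |m ν * m μ * ∑ b, G b ν * G b μ| := le_abs_self _
        _ = |m ν| * |m μ| * |∑ b, G b ν * G b μ| := by rw [abs_mul, abs_mul]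
        _ ≤ |m ν| * |m μ| * η := mul_le_mul_of_nonneg_left (ho ν μ h) (by positivity)
        _ = η * (|m ν| * |m μ|) := by ring
  rw [h1]
  refine (sum_le_sum fun ν _ => sum_le_sum fun μ _ => h2 ν μ).trans (le_of_eq ?_)
  simp only [sum_add_distrib, sum_ite_eq, mem_univ, if_true, ← mul_sum]
  rw [sq, sum_mul]

end Run7.h882.NEG
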